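import Mathlib

/-!
# MP_e1e800_lc, injective letters: averaging over random tuples

Abstract system: a monotone cost `V` on sets of states, permutations `σ x` (completed letters),
a forward letter `lab q` and a rank `d q` of every state.
-/

namespace MPe1e800INJ

open Finset

/-- Abstract data of an automaton with injective letters. -/
structure Sys (Q X : Type) where
  V : Set Q → ℕ
  σ : X → Equiv.Perm Q
  lab : Q → X
  d : Q → ℕ
  mono : ∀ S T : Set Q, S ⊆ T → V S ≤ V T
  step : ∀ (x : X) (S : Set Q), V S ≤ 1 + V (σ x '' S)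
  dnext : ∀ q, 2 ≤ d q → d (σ (lab q) q) + 1 = d q
  kill : ∀ (q : Q) (S : Set Q), d q ≤ 1 → V (insert q S) ≤ 1 + V (σ (lab q) '' S)

set_option linter.unusedSectionVars false

variable {Q X : Type} [Fintype Q] [Fintype X]

/-- Average of `f` over all `k`-tuples. -/
noncomputable def av (Q : Type) [Fintype Q] (k : ℕ) (f : (Fin k → Q) → ℝ) : ℝ :=
  (∑ P : Fin k → Q, f P) / (Fintype.card Q : ℝ) ^ k

theorem av_le (k : ℕ) {f g : (Fin k → Q) → ℝ} (h : ∀ P, f P ≤ g P) : av Q k f ≤ av Q k g := by
  unfold av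
  exact div_le_div_of_nonneg_right (Finset.sum_le_sum fun P _ => h P) (by positivity)

theorem av_add (k : ℕ) (f g : (Fin k → Q) → ℝ) :
    av Q k (fun P => f P + g P) = av Q k f + av Q k g := by
  unfold av
  rw [Finset.sum_add_distrib, add_div]

theorem av_sub (k : ℕ) (f g : (Fin k → Q) → ℝ) :
    av Q k (fun P => f P - g P) = av Q k f - av Q k g := by
  unfold av
  rw [Finset.sum_sub_distrib, sub_div]

theorem av_mul_left (k : ℕ) (c : ℝ) (f : (Fin k → Q) → ℝ) :
    av Q k (fun P => c * f P) = c * av Q k f := by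
  unfold av
  rw [← Finset.mul_sum, mul_div_assoc]

theorem av_sum {ι : Type} (s : Finset ι) (k : ℕ) (f : ι → (Fin k → Q) → ℝ) :
    av Q k (fun P => ∑ i ∈ s, f i P) = ∑ i ∈ s, av Q k (f i) := by
  unfold av
  rw [Finset.sum_comm, Finset.sum_div]

theorem av_const [Nonempty Q] (k : ℕ) (c : ℝ) : av Q k (fun _ => c) = c := by
  unfold av
  have hn : (Fintype.card Q : ℝ) ≠ 0 := by
    exact_mod_cast Fintype.card_ne_zero
  rw [Finset.sum_const, nsmul_eq_mul, Finset.card_univ, Fintype.card_fun, Fintype.card_fin]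
  push_cast
  field_simp

theorem av_perm (k : ℕ) (s : Equiv.Perm Q) (f : (Fin k → Q) → ℝ) :
    av Q k (fun P => f (fun i => s (P i))) = av Q k f := by
  unfold av
  congr 1
  exact Fintype.sum_equiv (Equiv.arrowCongr (Equiv.refl (Fin k)) s) _ _ (fun P => rfl)

theorem range_insertNth {k : ℕ} (i : Fin (k + 1)) (q : Q) (P : Fin k → Q) :
    Set.range (i.insertNth q P : Fin (k + 1) → Q) = insert q (Set.range P) := by
  ext y
  simp only [Set.mem_range, Set.mem_insert_iff]
  rw [Fin.exists_iff_succAbove i]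
  simp [eq_comm]

/-- Splitting off one coordinate. -/
theorem av_split (k : ℕ) (i : Fin (k + 1)) (f : (Fin (k + 1) → Q) → ℝ) :
    av Q (k + 1) f = (∑ q : Q, av Q k (fun P => f (i.insertNth q P))) / (Fintype.card Q : ℝ) := by
  unfold av
  have h : ∑ P : Fin (k + 1) → Q, f P = ∑ q : Q, ∑ P : Fin k → Q, f (i.insertNth q P) := by
    rw [← Fintype.sum_prod_type' (fun q P => f (i.insertNth q P))]
    exact (Fintype.sum_equiv (Fin.insertNthEquiv (fun _ => Q) i) _ _ (fun P => rfl)).symm
  rw [h, ← Finset.sum_div, pow_succ, div_div]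

namespace Sys

variable (M : Sys Q X)

/-- Average cost of a random `k`-tuple. -/
noncomputable def C (k : ℕ) : ℝ := av Q k (fun P => (M.V (Set.range P) : ℝ))

/-- Average cost of a random `k`-tuple together with `q`. -/
noncomputable def W (k : ℕ) (q : Q) : ℝ := av Q k (fun P => (M.V (insert q (Set.range P)) : ℝ))

/-- The average slack of the forward letter of `q`. -/
noncomputable def Df (k : ℕ) (q : Q) : ℝ := 1 + M.W k (M.σ (M.lab q) q) - M.W k q

theorem range_comp_perm {k : ℕ} (s : Equiv.Perm Q) (P : Fin k → Q) :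
    Set.range (fun i => s (P i)) = s '' Set.range P :=
  Set.range_comp s P

theorem C_succ (k : ℕ) : M.C (k + 1) = (∑ q : Q, M.W k q) / (Fintype.card Q : ℝ) := by
  unfold C W
  rw [av_split k 0]
  simp_rw [range_insertNth]

/-- The slack of the letter `x` on a tuple. -/
noncomputable def sl {k : ℕ} (x : X) (P : Fin k → Q) : ℝ :=
  1 + (M.V (M.σ x '' Set.range P) : ℝ) - (M.V (Set.range P) : ℝ)

theorem sl_nonneg {k : ℕ} (x : X) (P : Fin k → Q) : 0 ≤ M.sl x P := by
  have := M.step x (Set.range P)
  have h : (M.V (Set.range P) : ℝ) ≤ 1 + (M.V (M.σ x '' Set.range P) : ℝ) := by exact_mod_cast this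
  unfold sl; linarith

theorem av_sl [Nonempty Q] (k : ℕ) (x : X) : av Q k (fun P => M.sl x P) = 1 := by
  unfold sl
  rw [av_sub, av_add, av_const]
  have := av_perm k (M.σ x) (fun P => (M.V (Set.range P) : ℝ))
  simp_rw [range_comp_perm] at this
  rw [this]; ring

theorem Df_eq [Nonempty Q] (k : ℕ) (i : Fin (k + 1)) (q : Q) :
    av Q k (fun P => M.sl (M.lab q) (i.insertNth q P : Fin (k + 1) → Q)) = M.Df k q := by
  unfold sl Df W
  simp_rw [range_insertNth]
  rw [av_sub, av_add, av_const]
  have := av_perm k (M.σ (M.lab q)) (fun P => (M.V (insert (M.σ (M.lab q) q) (Set.range P)) : ℝ))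
  simp_rw [range_comp_perm] at this
  rw [← this]
  simp_rw [Set.image_insert_eq]

theorem Df_nonneg [Nonempty Q] (k : ℕ) (q : Q) : 0 ≤ M.Df k q := by
  rw [← M.Df_eq k 0 q]
  have := av_le (Q := Q) k (f := fun _ => (0 : ℝ))
    (g := fun P => M.sl (M.lab q) ((0 : Fin (k + 1)).insertNth q P : Fin (k + 1) → Q))
    (fun P => M.sl_nonneg _ _)
  rwa [av_const] at this

/-- The defect sum. -/
noncomputable def Xs (k : ℕ) : ℝ := ∑ r : Q, max (1 - M.Df k r) 0

theorem W_le [Nonempty Q] (k : ℕ) (q : Q) : M.W k q ≤ M.C k + 1 + M.Xs k := by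
  classical
  have key : ∀ t : ℕ, ∀ q : Q, M.d q = t →
      M.W k q ≤ M.C k + 1 + ∑ r ∈ univ.filter (fun r => M.d r ≤ t), max (1 - M.Df k r) 0 := by
    intro t
    induction t using Nat.strong_induction_on with
    | _ t ih =>
      intro q hq
      by_cases h2 : 2 ≤ M.d q
      · have h3 := M.dnext q h2
        have h4 := ih (M.d (M.σ (M.lab q) q)) (by omega) _ rfl
        have h5 : M.W k q = (1 - M.Df k q) + M.W k (M.σ (M.lab q) q) := by
          unfold Df; ring
        have h6 : (∑ r ∈ univ.filter (fun r => M.d r ≤ M.d (M.σ (M.lab q) q)), max (1 - M.Df k r) 0)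
            + max (1 - M.Df k q) 0 ≤
            ∑ r ∈ univ.filter (fun r => M.d r ≤ t), max (1 - M.Df k r) 0 := by
          have h7 : q ∉ univ.filter (fun r => M.d r ≤ M.d (M.σ (M.lab q) q)) := by
            simp; omega
          rw [add_comm]
          have h9 := Finset.sum_insert (f := fun r => max (1 - M.Df k r) 0) h7
          refine h9.symm.le.trans ?_
          apply Finset.sum_le_sum_of_subset_of_nonneg
          · intro r hr
            simp only [Finset.mem_insert, Finset.mem_filter, Finset.mem_univ, true_and] at hr ⊢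
            rcases hr with rfl | hr
            · omega
            · omega
          · intro r _ _; exact le_max_right _ _
        have h8 : 1 - M.Df k q ≤ max (1 - M.Df k q) 0 := le_max_left _ _
        linarith
      · have h3 : ∀ P : Fin k → Q, (M.V (insert q (Set.range P)) : ℝ) ≤
            1 + (M.V (M.σ (M.lab q) '' Set.range P) : ℝ) := by
          intro P
          exact_mod_cast M.kill q (Set.range P) (by omega)
        have h4 : M.W k q ≤ 1 + M.C k := by
          unfold W C
          refine (av_le k h3).trans ?_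
          rw [av_add, av_const]
          have := av_perm k (M.σ (M.lab q)) (fun P => (M.V (Set.range P) : ℝ))
          simp_rw [range_comp_perm] at this
          rw [this]
        have h5 : 0 ≤ ∑ r ∈ univ.filter (fun r => M.d r ≤ t), max (1 - M.Df k r) 0 :=
          Finset.sum_nonneg fun r _ => le_max_right _ _
        linarith
  refine (key _ q rfl).trans ?_
  unfold Xs
  have : ∑ r ∈ univ.filter (fun r => M.d r ≤ M.d q), max (1 - M.Df k r) 0 ≤
      ∑ r : Q, max (1 - M.Df k r) 0 :=
    Finset.sum_le_sum_of_subset_of_nonneg (Finset.filter_subset _ _)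
      (fun r _ _ => le_max_right _ _)
  linarith

theorem C_rec [Nonempty Q] (k : ℕ) : M.C (k + 1) ≤ M.C k + 1 + M.Xs k := by
  rw [C_succ]
  have hn : (0 : ℝ) < (Fintype.card Q : ℝ) := by exact_mod_cast Fintype.card_pos
  rw [div_le_iff₀ hn]
  calc ∑ q : Q, M.W k q ≤ ∑ _q : Q, (M.C k + 1 + M.Xs k) :=
        Finset.sum_le_sum fun q _ => M.W_le k q
    _ = (M.C k + 1 + M.Xs k) * (Fintype.card Q : ℝ) := by
        rw [Finset.sum_const, nsmul_eq_mul, Finset.card_univ, mul_comm]

theorem Xs_le_card [Nonempty Q] (k : ℕ) : M.Xs k ≤ (Fintype.card Q : ℝ) := by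
  unfold Xs
  calc ∑ r : Q, max (1 - M.Df k r) 0 ≤ ∑ _r : Q, (1 : ℝ) := by
        apply Finset.sum_le_sum
        intro r _
        apply max_le _ zero_le_one
        linarith [M.Df_nonneg k r]
    _ = (Fintype.card Q : ℝ) := by simp

end Sys

end MPe1e800INJ
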