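import Pool.Agent.Lib.MP_e1e800_lc_INJ.Sum
import Pool.Agent.Lib.MP_e1e800_lc.Defs

/-!
# MP_e1e800_lc, injective letters: from automata to the abstract system
-/

namespace MPe1e800INJ

open Finset MPe1e800

/-- Every letter acts injectively on its domain. -/
def InjLetters {Q A : Type} (δ : Q → A → Option Q) : Prop :=
  ∀ (x : A) (p q r : Q), δ p x = some r → δ q x = some r → p = q

theorem foldl_step_none' {Q A : Type} (δ : Q → A → Option Q) (w : List A) :
    w.foldl (step δ) none = none := by
  induction w with
  | nil => rfl
  | cons x w ih => simpa [step] using ih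

theorem run_nil' {Q A : Type} (δ : Q → A → Option Q) (q : Q) : run δ q [] = some q := rfl

theorem run_cons_none {Q A : Type} (δ : Q → A → Option Q) (q : Q) (x : A) (w : List A)
    (h : δ q x = none) : run δ q (x :: w) = none := by
  unfold run
  rw [List.foldl_cons]
  have : step δ (some q) x = none := by simp [step, h]
  rw [this, foldl_step_none']

theorem run_cons_some {Q A : Type} (δ : Q → A → Option Q) (q r : Q) (x : A) (w : List A)
    (h : δ q x = some r) : run δ q (x :: w) = run δ r w := by
  unfold run
  rw [List.foldl_cons]
  have : step δ (some q) x = some r := by simp [step, h]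
  rw [this]

theorem run_append_none {Q A : Type} (δ : Q → A → Option Q) (q : Q) (v w : List A)
    (h : run δ q v = none) : run δ q (v ++ w) = none := by
  unfold run at h ⊢
  rw [List.foldl_append, h, foldl_step_none']

theorem run_append_some {Q A : Type} (δ : Q → A → Option Q) (q r : Q) (v w : List A)
    (h : run δ q v = some r) : run δ q (v ++ w) = run δ r w := by
  unfold run at h ⊢
  rw [List.foldl_append, h]

section

variable {Q A : Type} (δ : Q → A → Option Q)

/-- The length of a shortest word which kills all states of `S`. -/
noncomputable def cost (S : Set Q) : ℕ :=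
  sInf {k : ℕ | ∃ w : List A, (∀ q ∈ S, run δ q w = none) ∧ w.length = k}

variable {δ}

theorem cost_le {S : Set Q} {w : List A} (h : ∀ q ∈ S, run δ q w = none) :
    cost δ S ≤ w.length := Nat.sInf_le ⟨w, h, rfl⟩

variable (hm : ∃ w : List A, Mortal δ w)

include hm

theorem exists_opt (S : Set Q) :
    ∃ w : List A, (∀ q ∈ S, run δ q w = none) ∧ w.length = cost δ S := by
  obtain ⟨w, hw⟩ := hm
  exact Nat.sInf_mem (s := {k : ℕ | ∃ w : List A, (∀ q ∈ S, run δ q w = none) ∧ w.length = k})
    ⟨w.length, w, fun q _ => hw q, rfl⟩

theorem cost_mono (S T : Set Q) (h : S ⊆ T) : cost δ S ≤ cost δ T := by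
  obtain ⟨w, hw, hl⟩ := exists_opt hm T
  rw [← hl]
  exact cost_le fun q hq => hw q (h hq)

theorem cost_univ : cost δ Set.univ = threshold δ := by
  unfold cost threshold Mortal
  simp

theorem cost_single_pos (q : Q) : 1 ≤ cost δ {q} := by
  obtain ⟨w, hw, hl⟩ := exists_opt hm {q}
  rcases w with _ | ⟨x, w⟩
  · have := hw q rfl
    rw [run_nil'] at this
    exact absurd this (by simp)
  · rw [← hl]; simp

theorem exists_label (q : Q) : ∃ x : A, ∃ w : List A, run δ q (x :: w) = none ∧
    w.length + 1 = cost δ {q} := by
  obtain ⟨w, hw, hl⟩ := exists_opt hm {q}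
  rcases w with _ | ⟨x, w⟩
  · have := hw q rfl
    rw [run_nil'] at this
    exact absurd this (by simp)
  · exact ⟨x, w, hw q rfl, by rw [← hl]; simp⟩

theorem cost_step (x : A) (σ : Q → Q) (hσ : ∀ p r, δ p x = some r → σ p = r) (S : Set Q) :
    cost δ S ≤ 1 + cost δ (σ '' S) := by
  obtain ⟨w, hw, hl⟩ := exists_opt hm (σ '' S)
  have h : ∀ q ∈ S, run δ q (x :: w) = none := by
    intro q hq
    cases hqx : δ q x with
    | none => exact run_cons_none δ q x w hqx
    | some r =>
      rw [run_cons_some δ q r x w hqx]
      exact hw r ⟨q, hq, hσ q r hqx⟩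
  have := cost_le h
  rw [List.length_cons, hl] at this
  omega

theorem cost_kill (x : A) (σ : Q → Q) (hσ : ∀ p r, δ p x = some r → σ p = r) (q : Q)
    (hq : δ q x = none) (S : Set Q) : cost δ (insert q S) ≤ 1 + cost δ (σ '' S) := by
  obtain ⟨w, hw, hl⟩ := exists_opt hm (σ '' S)
  have h : ∀ p ∈ insert q S, run δ p (x :: w) = none := by
    intro p hp
    cases hpx : δ p x with
    | none => exact run_cons_none δ p x w hpx
    | some r =>
      rw [run_cons_some δ p r x w hpx]
      rcases hp with rfl | hp
      · rw [hq] at hpx; exact absurd hpx (by simp)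
      · exact hw r ⟨p, hp, hσ p r hpx⟩
  have := cost_le h
  rw [List.length_cons, hl] at this
  omega

end

theorem exists_perm {Q A : Type} [Fintype Q] (δ : Q → A → Option Q) (h : InjLetters δ) (x : A) :
    ∃ σ : Equiv.Perm Q, ∀ p r, δ p x = some r → σ p = r := by
  classical
  by_cases hne : Nonempty Q
  · obtain ⟨q0⟩ := hne
    obtain ⟨g, hg⟩ := Finset.exists_equiv_extend_of_card_eq (α := Q) (β := Q)
      (t := (Finset.univ : Finset Q)) (by simp)
      (s := Finset.univ.filter (fun q => (δ q x).isSome)) (f := fun q => (δ q x).getD q0)
      (Finset.subset_univ _) (by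
        intro p hp q hq hpq
        simp only [Finset.coe_filter, Finset.mem_univ, true_and] at hp hq
        obtain ⟨r, hr⟩ := Option.isSome_iff_exists.1 hp
        obtain ⟨s, hs⟩ := Option.isSome_iff_exists.1 hq
        simp only [hr, hs, Option.getD_some] at hpq
        subst hpq
        exact h x p q r hr hs)
    refine ⟨g.trans (Equiv.subtypeUnivEquiv (fun y => Finset.mem_univ y)), ?_⟩
    intro p r hpr
    have := hg p (by simp [hpr])
    simp only [hpr, Option.getD_some] at this
    simpa using this
  · exact ⟨Equiv.refl Q, fun p => (hne ⟨p⟩).elim⟩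

/-- The abstract system of an injective automaton with a mortal word. -/
theorem exists_sys {Q A : Type} [Fintype Q] (δ : Q → A → Option Q) (h : InjLetters δ)
    (hm : ∃ w : List A, Mortal δ w) :
    ∃ M : Sys Q A, M.V = cost δ ∧ (∀ q, 1 ≤ M.d q) ∧ M.d = fun q => cost δ {q} := by
  classical
  choose σ hσ using fun x => exists_perm δ h x
  choose lab w hw hl using exists_label hm
  have hd : ∀ q r, δ q (lab q) = some r → cost δ {r} + 1 = cost δ {q} := by
    intro q r hr
    have h1 := hw q
    rw [run_cons_some δ q r _ _ hr] at h1
    have h2 : cost δ {r} ≤ (w q).length := cost_le (by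
      intro p hp
      rw [Set.mem_singleton_iff.1 hp]; exact h1)
    have h3 := cost_step hm (lab q) (σ (lab q)) (hσ (lab q)) {q}
    rw [Set.image_singleton, hσ _ _ _ hr] at h3
    have h4 := hl q
    omega
  refine ⟨⟨cost δ, σ, lab, fun q => cost δ {q}, cost_mono hm,
    fun x S => cost_step hm x (σ x) (hσ x) S, ?_, ?_⟩, rfl, fun q => cost_single_pos hm q, rfl⟩
  · intro q hq
    cases hqx : δ q (lab q) with
    | none =>
      have : cost δ {q} ≤ [lab q].length := cost_le (by
        intro p hp
        rw [Set.mem_singleton_iff.1 hp]
        exact run_cons_none δ q _ _ hqx)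
      rw [List.length_singleton] at this
      omega
    | some r =>
      rw [hσ _ _ _ hqx]
      exact hd q r hqx
  · intro q S hq
    apply cost_kill hm (lab q) (σ (lab q)) (hσ (lab q)) q _ S
    cases hqx : δ q (lab q) with
    | none => rfl
    | some r =>
      have h1 := hd q r hqx
      have h2 := cost_single_pos hm r
      omega

/-- Ranks are at most the number of states. -/
theorem rank_le {Q A : Type} [Fintype Q] (M : Sys Q A) (hd : ∀ q, 1 ≤ M.d q) (q : Q) :
    M.d q ≤ Fintype.card Q := by
  classical
  have key : ∀ t : ℕ, ∀ q : Q, M.d q = t → t ≤ (univ.filter (fun r => M.d r ≤ t)).card := by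
    intro t
    induction t using Nat.strong_induction_on with
    | _ t ih =>
      intro q hq
      by_cases h2 : 2 ≤ M.d q
      · have h3 := M.dnext q h2
        have h4 := ih (M.d (M.σ (M.lab q) q)) (by omega) _ rfl
        have h5 : (univ.filter (fun r => M.d r ≤ M.d (M.σ (M.lab q) q))).card <
            (univ.filter (fun r => M.d r ≤ t)).card := by
          apply Finset.card_lt_card
          rw [Finset.ssubset_iff_of_subset]
          · exact ⟨q, by simp [hq], by simp; omega⟩
          · intro r hr
            simp only [Finset.mem_filter, Finset.mem_univ, true_and] at hr ⊢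
            omega
        omega
      · have h3 : 0 < (univ.filter (fun r => M.d r ≤ t)).card :=
          Finset.card_pos.2 ⟨q, by simp [hq]⟩
        have := hd q
        omega
  refine (key _ q rfl).trans ?_
  exact Finset.card_le_univ _

/-- The greedy quadratic bound. -/
theorem greedy {Q A : Type} [Fintype Q] (δ : Q → A → Option Q)
    (hm : ∃ w : List A, Mortal δ w) (hr : ∀ q, cost δ {q} ≤ Fintype.card Q) :
    cost δ Set.univ ≤ Fintype.card Q * Fintype.card Q := by
  classical
  have key : ∀ s : ℕ, ∀ S : Finset Q, S.card ≤ s →
      ∃ w : List A, (∀ q ∈ S, run δ q w = none) ∧ w.length ≤ Fintype.card Q * s := by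
    intro s
    induction s with
    | zero =>
      intro S hS
      have : S = ∅ := Finset.card_eq_zero.1 (by omega)
      subst this
      exact ⟨[], by simp, by simp⟩
    | succ s ih =>
      intro S hS
      by_cases hne : S.Nonempty
      · obtain ⟨q, hq⟩ := hne
        obtain ⟨w, hw, hl⟩ := exists_opt hm {q}
        have hwq := hw q rfl
        -- the images of the other states
        let T : Finset Q := univ.filter (fun r => ∃ p ∈ S.erase q, run δ p w = some r)
        have hT : T.card ≤ s := by
          have h1 : T ⊆ (S.erase q).image (fun p => (run δ p w).getD q) := by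
            intro r hr
            simp only [T, Finset.mem_filter, Finset.mem_univ, true_and] at hr
            obtain ⟨p, hp, hpr⟩ := hr
            rw [Finset.mem_image]
            exact ⟨p, hp, by simp [hpr]⟩
          have h2 := Finset.card_le_card h1
          have h3 : ((S.erase q).image (fun p => (run δ p w).getD q)).card ≤ (S.erase q).card :=
            Finset.card_image_le
          have h4 : (S.erase q).card = S.card - 1 := Finset.card_erase_of_mem hq
          omega
        obtain ⟨v, hv, hvl⟩ := ih T hT
        refine ⟨w ++ v, ?_, ?_⟩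
        · intro p hp
          by_cases hpq : p = q
          · subst hpq
            exact run_append_none δ p w v hwq
          · cases hpw : run δ p w with
            | none => exact run_append_none δ p w v hpw
            | some r =>
              rw [run_append_some δ p r w v hpw]
              apply hv
              simp only [T, Finset.mem_filter, Finset.mem_univ, true_and]
              exact ⟨p, Finset.mem_erase.2 ⟨hpq, hp⟩, hpw⟩
        · rw [List.length_append, hl]
          have := hr q
          nlinarith
      · have : S = ∅ := Finset.not_nonempty_iff_eq_empty.1 hne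
        subst this
        exact ⟨[], by simp, by simp⟩
  obtain ⟨w, hw, hl⟩ := key (Fintype.card Q) Finset.univ (by simp)
  refine (cost_le (w := w) ?_).trans hl
  intro q _
  exact hw q (Finset.mem_univ q)

end MPe1e800INJ
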