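import Pool.Agent.Lib.MP_e1e800_lc_INJ.Abs

/-!
# MP_e1e800_lc, injective letters: the entropy inequality
-/

namespace MPe1e800INJ

open Finset

set_option linter.unusedSectionVars false

variable {Q X : Type} [Fintype Q] [Fintype X]

theorem young (y z : ℝ) (hy : 0 ≤ y) : y * z ≤ y * Real.log y - y + Real.exp z := by
  rcases hy.eq_or_lt with rfl | hy
  · simp [Real.exp_nonneg]
  · have h1 := Real.add_one_le_exp (z - Real.log y)
    have h2 : Real.exp (z - Real.log y) = Real.exp z / y := by
      rw [Real.exp_sub, Real.exp_log hy]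
    rw [h2, le_div_iff₀ hy] at h1
    nlinarith

theorem mul_log_le (y B : ℝ) (hy : 0 ≤ y) (hyB : y ≤ B) :
    y * Real.log y ≤ y * Real.log B := by
  rcases hy.eq_or_lt with rfl | hy'
  · simp
  · exact mul_le_mul_of_nonneg_left (Real.log_le_log hy' hyB) hy

theorem exp_le_quad (x : ℝ) (hx : |x| ≤ 1) : Real.exp x ≤ 1 + x + x ^ 2 := by
  have := Real.abs_exp_sub_one_sub_id_le hx
  rw [abs_le] at this
  linarith [this.2]

/-- Average of a product. -/
theorem av_prod (k : ℕ) (g : Q → ℝ) :
    av Q k (fun P => ∏ i, g (P i)) = ((∑ r : Q, g r) / (Fintype.card Q : ℝ)) ^ k := by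
  unfold av
  rw [div_pow]
  congr 1
  rw [← Fintype.sum_pow]

/-- One-coordinate moment generating function. -/
theorem mgf_one [Nonempty Q] (A : Finset Q) (lam : ℝ) (h0 : 0 ≤ lam) (h1 : lam ≤ 1) :
    (∑ r : Q, Real.exp (lam * ((A.card : ℝ) / (Fintype.card Q : ℝ) - Set.indicator (A : Set Q) 1 r)))
      / (Fintype.card Q : ℝ) ≤ Real.exp ((A.card : ℝ) / (Fintype.card Q : ℝ) * lam ^ 2) := by
  classical
  set n : ℝ := (Fintype.card Q : ℝ) with hn
  have hn0 : 0 < n := by rw [hn]; exact_mod_cast Fintype.card_pos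
  set p : ℝ := (A.card : ℝ) / n with hp
  have hp0 : 0 ≤ p := by positivity
  have hp1 : p ≤ 1 := by
    rw [hp, div_le_one hn0, hn]
    exact_mod_cast Finset.card_le_univ A
  have hind : ∀ r : Q, Set.indicator (A : Set Q) (1 : Q → ℝ) r = 0 ∨
      Set.indicator (A : Set Q) (1 : Q → ℝ) r = 1 := by
    intro r
    by_cases h : r ∈ (A : Set Q)
    · right; simp [h]
    · left; simp [h]
  have h2 : ∀ r : Q, Real.exp (lam * (p - Set.indicator (A : Set Q) 1 r)) ≤
      1 + lam * (p - Set.indicator (A : Set Q) 1 r) +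
        lam ^ 2 * (p ^ 2 + (1 - 2 * p) * Set.indicator (A : Set Q) 1 r) := by
    intro r
    refine (exp_le_quad _ ?_).trans (le_of_eq ?_)
    · rw [abs_le]
      rcases hind r with h | h <;> rw [h] <;> constructor <;> nlinarith
    · rcases hind r with h | h <;> rw [h] <;> ring
  have hsum : ∑ r : Q, Set.indicator (A : Set Q) (1 : Q → ℝ) r = n * p := by
    rw [hp]
    have : ∑ r : Q, Set.indicator (A : Set Q) (1 : Q → ℝ) r = (A.card : ℝ) := by
      simp [Set.indicator_apply]
    rw [this]; field_simp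
  have h3 : ∑ r : Q, Real.exp (lam * (p - Set.indicator (A : Set Q) 1 r)) ≤
      n * (1 + lam ^ 2 * (p * (1 - p))) := by
    refine (Finset.sum_le_sum fun r _ => h2 r).trans (le_of_eq ?_)
    rw [Finset.sum_add_distrib, Finset.sum_add_distrib, ← Finset.mul_sum, ← Finset.mul_sum,
      Finset.sum_sub_distrib, Finset.sum_add_distrib, ← Finset.mul_sum, hsum]
    simp only [Finset.sum_const, Finset.card_univ, nsmul_eq_mul, ← hn]
    ring
  rw [div_le_iff₀ hn0]
  refine h3.trans ?_
  rw [mul_comm]
  apply mul_le_mul_of_nonneg_right _ hn0.le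
  have h4 := Real.add_one_le_exp (p * lam ^ 2)
  nlinarith [mul_nonneg (sq_nonneg lam) (mul_nonneg hp0 hp0)]

namespace Sys

variable (M : Sys Q X)

/-- The states with forward letter `x` and slack below one. -/
noncomputable def Ax (k : ℕ) (x : X) : Finset Q := by
  classical
  exact univ.filter (fun r => M.lab r = x ∧ M.Df k r < 1)

theorem Xs_eq (k : ℕ) : M.Xs k = ∑ x : X, ∑ r ∈ M.Ax k x, (1 - M.Df k r) := by
  classical
  unfold Xs
  rw [← Finset.sum_fiberwise univ M.lab]
  apply Finset.sum_congr rfl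
  intro x _
  unfold Ax
  rw [← Finset.filter_filter, Finset.sum_filter (fun r => M.Df k r < 1)]
  apply Finset.sum_congr rfl
  intro r _
  split_ifs with h
  · exact max_eq_left (by linarith)
  · exact max_eq_right (by linarith)

theorem sum_card_Ax (k : ℕ) : ∑ x : X, ((M.Ax k x).card : ℝ) ≤ (Fintype.card Q : ℝ) := by
  classical
  have h : ∑ x : X, ((M.Ax k x).card : ℝ) ≤ ∑ x : X, ((univ.filter (fun r => M.lab r = x)).card : ℝ) := by
    apply Finset.sum_le_sum
    intro x _
    unfold Ax
    norm_cast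
    apply Finset.card_le_card
    intro r hr
    simp at hr ⊢
    exact hr.1
  refine h.trans (le_of_eq ?_)
  have := Finset.card_eq_sum_card_fiberwise (s := (univ : Finset Q)) (t := (univ : Finset X))
    (f := M.lab) (by intro r _; simp)
  rw [Finset.card_univ] at this
  rw [this]
  push_cast
  rfl

/-- The covariance identity. -/
theorem av_sl_count [Nonempty Q] (k : ℕ) (x : X) :
    av Q (k + 1) (fun P => M.sl x P * ∑ i, Set.indicator (M.Ax k x : Set Q) 1 (P i)) =
      (k + 1) * (∑ r ∈ M.Ax k x, M.Df k r) / (Fintype.card Q : ℝ) := by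
  classical
  have h0 : (fun P : Fin (k + 1) → Q => M.sl x P *
      ∑ i, Set.indicator (M.Ax k x : Set Q) (1 : Q → ℝ) (P i)) = fun P => ∑ i, M.sl x P *
        Set.indicator (M.Ax k x : Set Q) (1 : Q → ℝ) (P i) := by
    funext P
    rw [Finset.mul_sum]
  rw [h0, av_sum]
  have h : ∀ i : Fin (k + 1), av Q (k + 1)
      (fun P => M.sl x P * Set.indicator (M.Ax k x : Set Q) 1 (P i)) =
      (∑ r ∈ M.Ax k x, M.Df k r) / (Fintype.card Q : ℝ) := by
    intro i
    rw [av_split k i]
    congr 1
    simp only [Fin.insertNth_apply_same]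
    rw [← Finset.sum_subset (Finset.subset_univ (M.Ax k x))]
    · apply Finset.sum_congr rfl
      intro r hr
      have hx : M.lab r = x := by
        unfold Ax at hr
        simp at hr
        exact hr.1
      rw [← M.Df_eq k i r, hx]
      simp only [Set.indicator_of_mem (Finset.mem_coe.2 hr), Pi.one_apply, mul_one]
    · intro r _ hr
      have : r ∉ (M.Ax k x : Set Q) := by simpa using hr
      simp only [Set.indicator_of_notMem this, mul_zero]
      exact av_const k 0
  rw [Finset.sum_congr rfl fun i _ => h i]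
  rw [Finset.sum_const, Finset.card_univ, Fintype.card_fin, nsmul_eq_mul]
  push_cast
  ring

theorem ent [Nonempty Q] (k : ℕ) (x : X) (B : ℝ) (hB : ∀ S, 1 + (M.V S : ℝ) ≤ B)
    (lam : ℝ) (h0 : 0 < lam) (h1 : lam ≤ 1) :
    ∑ r ∈ M.Ax k x, (1 - M.Df k r) ≤
      ((M.Ax k x).card : ℝ) * lam + (Fintype.card Q : ℝ) * Real.log B / ((k + 1) * lam) := by
  classical
  set n : ℝ := (Fintype.card Q : ℝ) with hn
  have hn0 : 0 < n := by rw [hn]; exact_mod_cast Fintype.card_pos
  set A := M.Ax k x with hA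
  set p : ℝ := (A.card : ℝ) / n with hp
  set c : ℝ := (k + 1) * (p * lam ^ 2) with hc
  set Z : (Fin (k + 1) → Q) → ℝ := fun P => ∑ i, (p - Set.indicator (A : Set Q) 1 (P i)) with hZ
  have hZ' : ∀ P, Z P = (k + 1) * p - ∑ i, Set.indicator (A : Set Q) (1 : Q → ℝ) (P i) := by
    intro P
    simp only [hZ, Finset.sum_sub_distrib, Finset.sum_const, Finset.card_univ, Fintype.card_fin,
      nsmul_eq_mul]
    push_cast
    ring
  -- mean of slack times Z
  have e1 : av Q (k + 1) (fun P => M.sl x P * Z P) =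
      (k + 1) / n * ∑ r ∈ A, (1 - M.Df k r) := by
    have e2 : (fun P => M.sl x P * Z P) = fun P => ((k + 1) * p) * M.sl x P -
        M.sl x P * ∑ i, Set.indicator (A : Set Q) 1 (P i) := by
      funext P
      rw [hZ']; ring
    rw [e2, av_sub, av_mul_left, av_sl, M.av_sl_count k x, ← hA, ← hn, Finset.sum_sub_distrib,
      Finset.sum_const, nsmul_eq_mul, hp]
    field_simp
  -- the exponential moment
  have e3 : av Q (k + 1) (fun P => Real.exp (lam * Z P)) ≤ Real.exp c := by
    have e4 : (fun P : Fin (k + 1) → Q => Real.exp (lam * Z P)) = fun P => ∏ i,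
        Real.exp (lam * (p - Set.indicator (A : Set Q) 1 (P i))) := by
      funext P
      rw [← Real.exp_sum, hZ, Finset.mul_sum]
    rw [e4, av_prod (k + 1) (fun r => Real.exp (lam * (p - Set.indicator (A : Set Q) 1 r)))]
    have e5 := mgf_one A lam h0.le h1
    rw [← hn, ← hp] at e5
    calc ((∑ r : Q, Real.exp (lam * (p - Set.indicator (A : Set Q) 1 r))) / n) ^ (k + 1)
        ≤ (Real.exp (p * lam ^ 2)) ^ (k + 1) := by
          apply pow_le_pow_left₀ _ e5
          exact div_nonneg (Finset.sum_nonneg fun r _ => Real.exp_nonneg _) hn0.le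
      _ = Real.exp c := by
          rw [← Real.exp_nat_mul, hc]; push_cast; ring_nf
  have e6 : lam * av Q (k + 1) (fun P => M.sl x P * Z P) ≤ c + Real.log B := by
    have e7 : ∀ P : Fin (k + 1) → Q, lam * (M.sl x P * Z P) ≤
        (c + Real.log B - 1) * M.sl x P + Real.exp (-c) * Real.exp (lam * Z P) := by
      intro P
      have hs := M.sl_nonneg x P
      have hsB : M.sl x P ≤ B := by
        unfold sl
        have := hB (M.σ x '' Set.range P)
        have h2 : (0 : ℝ) ≤ (M.V (Set.range P) : ℝ) := by positivity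
        linarith
      have y1 := young (M.sl x P) (lam * Z P - c) hs
      have y2 := mul_log_le (M.sl x P) B hs hsB
      have y3 : Real.exp (lam * Z P - c) = Real.exp (-c) * Real.exp (lam * Z P) := by
        rw [← Real.exp_add]; ring_nf
      rw [y3] at y1
      nlinarith
    rw [← av_mul_left]
    refine (av_le (k + 1) e7).trans ?_
    rw [av_add, av_mul_left, av_mul_left, av_sl]
    have e8 : Real.exp (-c) * av Q (k + 1) (fun P => Real.exp (lam * Z P)) ≤ 1 := by
      calc Real.exp (-c) * av Q (k + 1) (fun P => Real.exp (lam * Z P))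
          ≤ Real.exp (-c) * Real.exp c := mul_le_mul_of_nonneg_left e3 (Real.exp_nonneg _)
        _ = 1 := by rw [← Real.exp_add]; simp
    linarith
  rw [e1] at e6
  have hk : (0 : ℝ) < (k : ℝ) + 1 := by positivity
  have e9 : ∑ r ∈ A, (1 - M.Df k r) ≤ n * (c + Real.log B) / ((k + 1) * lam) := by
    rw [le_div_iff₀ (by positivity)]
    have : lam * ((k + 1) / n * ∑ r ∈ A, (1 - M.Df k r)) * n =
        (∑ r ∈ A, (1 - M.Df k r)) * ((k + 1) * lam) := by
      field_simp
    rw [← this]
    nlinarith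
  refine e9.trans (le_of_eq ?_)
  rw [hc, hp]
  field_simp

theorem Xs_le [Nonempty Q] (k : ℕ) (B : ℝ) (hB : ∀ S, 1 + (M.V S : ℝ) ≤ B)
    (lam : ℝ) (h0 : 0 < lam) (h1 : lam ≤ 1) :
    M.Xs k ≤ (Fintype.card Q : ℝ) *
      (lam + (Fintype.card X : ℝ) * Real.log B / ((k + 1) * lam)) := by
  rw [Xs_eq]
  refine (Finset.sum_le_sum fun x _ => M.ent k x B hB lam h0 h1).trans ?_
  rw [Finset.sum_add_distrib, ← Finset.sum_mul, Finset.sum_const, Finset.card_univ, nsmul_eq_mul]
  have := M.sum_card_Ax k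
  have h2 : (∑ x : X, ((M.Ax k x).card : ℝ)) * lam ≤ (Fintype.card Q : ℝ) * lam :=
    mul_le_mul_of_nonneg_right this h0.le
  have h3 : (Fintype.card Q : ℝ) * (lam + (Fintype.card X : ℝ) * Real.log B / ((k + 1) * lam)) =
      (Fintype.card Q : ℝ) * lam + (Fintype.card X : ℝ) *
        ((Fintype.card Q : ℝ) * Real.log B / ((k + 1) * lam)) := by ring
  rw [h3]
  linarith

end Sys

end MPe1e800INJ
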