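import Pool.Agent.Lib.MP_e1e800_lc_INJ.Aut
import Pool.Agent.Lib.MP_e1e800_lc.Final

/-!
# MP_e1e800_lc, injective letters: the lower bound `c n^{1.3}`
-/

namespace MPe1e800INJ

open Finset MPe1e800

/-- The storage with an exit at `c₀` under `true`, and `r` further states without transitions. -/
def sto (M : ℕ) (c₀ : Stor M) (r : ℕ) : (Stor M ⊕ Fin r) → Bool → Option (Stor M ⊕ Fin r)
  | Sum.inl q, true => if q = c₀ then none else some (Sum.inl (stA M q))
  | Sum.inl q, false => some (Sum.inl (stB M q))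
  | Sum.inr _, _ => none

theorem sto_inj (M : ℕ) (c₀ : Stor M) (r : ℕ) : InjLetters (sto M c₀ r) := by
  intro x p q s hp hq
  cases p with
  | inr i => cases x <;> simp [sto] at hp
  | inl p =>
    cases q with
    | inr i => cases x <;> simp [sto] at hq
    | inl q =>
      cases x with
      | false =>
        simp only [sto, Option.some.injEq] at hp hq
        rw [← hq] at hp
        have := Sum.inl.inj hp
        rw [stB_injective M this]
      | true =>
        simp only [sto] at hp hq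
        split_ifs at hp hq with h1 h2
        rw [← hq] at hp
        have h3 := Sum.inl.inj (Option.some.inj hp)
        have h4 : p = q := by
          rw [← stA_stA M p, ← stA_stA M q, h3]
        rw [h4]

theorem sto_run_hit (M : ℕ) (c₀ : Stor M) (r : ℕ) (w : List Bool) : ∀ q : Stor M,
    run (sto M c₀ r) (Sum.inl q) w = none →
      ∃ p, p <+: w ∧ spath (stA M) (stB M) q p = c₀ := by
  induction w with
  | nil => intro q h; exact absurd h (by simp [run])
  | cons x w ih =>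
    intro q h
    by_cases hq : q = c₀
    · exact ⟨[], List.nil_prefix, by rw [hq]; rfl⟩
    · cases x with
      | true =>
        rw [run_cons_some (sto M c₀ r) _ (Sum.inl (stA M q)) true w (by simp [sto, hq])] at h
        obtain ⟨p, hp, hpc⟩ := ih _ h
        exact ⟨true :: p, List.cons_prefix_cons.mpr ⟨rfl, hp⟩, by rw [spath_cons]; exact hpc⟩
      | false =>
        rw [run_cons_some (sto M c₀ r) _ (Sum.inl (stB M q)) false w (by simp [sto])] at h
        obtain ⟨p, hp, hpc⟩ := ih _ h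
        exact ⟨false :: p, List.cons_prefix_cons.mpr ⟨rfl, hp⟩, by rw [spath_cons]; exact hpc⟩

theorem sto_mortal (M : ℕ) (hM : 0 < M) (r : ℕ) :
    ∃ w, Mortal (sto M (⟨0, hM⟩, false) r) w := by
  apply mortal_of_forall
  intro q
  cases q with
  | inr i => exact ⟨[true], run_cons_none _ _ _ _ rfl⟩
  | inl q =>
    obtain ⟨w, hw⟩ := stor_reach M hM q
    have key : ∀ (w : List Bool) (q : Stor M),
        spath (stA M) (stB M) q w = (⟨0, hM⟩, false) →
        ∃ v, run (sto M (⟨0, hM⟩, false) r) (Sum.inl q) v = none := by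
      intro w
      induction w with
      | nil =>
        intro q hq
        have hq' : q = (⟨0, hM⟩, false) := hq
        exact ⟨[true], run_cons_none _ _ _ _ (by rw [hq']; simp [sto])⟩
      | cons x w ih =>
        intro q hq
        rw [spath_cons] at hq
        by_cases hqc : q = (⟨0, hM⟩, false)
        · exact ⟨[true], run_cons_none _ _ _ _ (by rw [hqc]; simp [sto])⟩
        · obtain ⟨v, hv⟩ := ih _ hq
          refine ⟨x :: v, ?_⟩
          cases x with
          | true =>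
            rw [run_cons_some _ _ (Sum.inl (stA M q)) true v (by simp [sto, hqc])]
            exact hv
          | false =>
            rw [run_cons_some _ _ (Sum.inl (stB M q)) false v (by simp [sto])]
            exact hv
    exact key w q hw

theorem trans_inj {Q : Type} {n : ℕ} (e : Q ≃ Fin n) (f : Bool ≃ Fin 2)
    (δ : Q → Bool → Option Q) (h : InjLetters δ) : InjLetters (trans e f δ) := by
  intro x p q r hp hq
  unfold MPe1e800.trans at hp hq
  rw [Option.map_eq_some_iff] at hp hq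
  obtain ⟨p', hp', rp⟩ := hp
  obtain ⟨q', hq', rq⟩ := hq
  have h1 : p' = q' := e.injective (by rw [rp, rq])
  subst h1
  exact e.symm.injective (h _ _ _ _ hp' hq')

theorem le_len (M k L : ℕ) (hM : 40 ≤ M) (hk1 : 40 * 2 ^ k ≤ M) (hk2 : M < 80 * 2 ^ k)
    (hL : 40 * 85 ^ k * (2 * M) ≤ 4 * (6 * 69 ^ k * (45 * (L + 1)) + 408 * 170 ^ k)) :
    (M : ℝ) ^ (1.3 : ℝ) / 2240 ≤ L + 1 := by
  have hMpos : (0 : ℝ) < M := by
    have : (0 : ℕ) < M := by omega
    exact_mod_cast this
  have hL' : (40 : ℝ) * 85 ^ k * (2 * M) ≤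
      4 * (6 * 69 ^ k * (45 * (L + 1)) + 408 * 170 ^ k) := by exact_mod_cast hL
  have h170 : (170 : ℝ) ^ k = 85 ^ k * 2 ^ k := by rw [← mul_pow]; norm_num
  rw [h170] at hL'
  have hk1' : (40 : ℝ) * 2 ^ k ≤ M := by exact_mod_cast hk1
  have h85 : (0 : ℝ) < 85 ^ k := by positivity
  have h69 : (0 : ℝ) < 69 ^ k := by positivity
  have hq : (85 / 69 : ℝ) ^ k = 85 ^ k / 69 ^ k := div_pow _ _ _
  have h1 : (85 / 69 : ℝ) ^ k * M / 28 ≤ L + 1 := by
    rw [hq, div_mul_eq_mul_div, div_div, div_le_iff₀ (by positivity)]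
    nlinarith [mul_le_mul_of_nonneg_left hk1' h85.le]
  refine le_trans ?_ h1
  have h4 : (M : ℝ) ^ (1.3 : ℝ) = M * (M : ℝ) ^ (0.3 : ℝ) := by
    rw [show (1.3 : ℝ) = 1 + 0.3 by norm_num, Real.rpow_add hMpos, Real.rpow_one]
  have hk2' : (M : ℝ) ≤ 80 * 2 ^ k := by
    have : (M : ℝ) < 80 * 2 ^ k := by exact_mod_cast hk2
    exact this.le
  have h5 : (M : ℝ) ^ (0.3 : ℝ) ≤ 80 * (85 / 69 : ℝ) ^ k := by
    calc (M : ℝ) ^ (0.3 : ℝ) ≤ (80 * 2 ^ k : ℝ) ^ (0.3 : ℝ) :=
          Real.rpow_le_rpow hMpos.le hk2' (by norm_num)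
      _ = (80 : ℝ) ^ (0.3 : ℝ) * ((2 : ℝ) ^ k) ^ (0.3 : ℝ) :=
          Real.mul_rpow (by norm_num) (by positivity)
      _ ≤ 80 * (85 / 69 : ℝ) ^ k := by
          apply mul_le_mul _ (eta_pow k) (by positivity) (by norm_num)
          calc (80 : ℝ) ^ (0.3 : ℝ) ≤ (80 : ℝ) ^ (1 : ℝ) :=
                Real.rpow_le_rpow_of_exponent_le (by norm_num) (by norm_num)
            _ = 80 := Real.rpow_one _
  rw [h4]
  have := mul_le_mul_of_nonneg_left h5 hMpos.le
  rw [div_le_div_iff₀ (by norm_num) (by norm_num)]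
  nlinarith

theorem low_bound (n : ℕ) (hn : 80000 ≤ n) : ∃ δ : Fin n → Fin 2 → Option (Fin n),
    InjLetters δ ∧ (∃ w : List (Fin 2), Mortal δ w) ∧
      (n : ℝ) ^ (1.3 : ℝ) / 80000 ≤ (threshold δ : ℝ) := by
  classical
  set M := n / 2 with hMdef
  set k := Nat.log 2 (M / 40) with hk
  have hM40 : 40 ≤ M := by omega
  have hM : 0 < M := by omega
  have hk1 : 40 * 2 ^ k ≤ M := by
    have : 2 ^ k ≤ M / 40 := Nat.pow_log_le_self 2 (by omega)
    omega
  have hk2 : M < 80 * 2 ^ k := by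
    have : M / 40 < 2 ^ (k + 1) := Nat.lt_pow_succ_log_self (by norm_num) _
    rw [pow_succ] at this
    omega
  set r := n - 2 * M with hr
  have hcard : Fintype.card (Stor M ⊕ Fin r) = n := by
    simp only [Fintype.card_sum, Fintype.card_prod, Fintype.card_fin, Fintype.card_bool]
    omega
  let e : (Stor M ⊕ Fin r) ≃ Fin n := Fintype.equivFinOfCardEq hcard
  let f : Bool ≃ Fin 2 := (finTwoEquiv).symm
  obtain ⟨w0, hw0⟩ := sto_mortal M hM r
  have hmort : Mortal (trans e f (sto M (⟨0, hM⟩, false) r)) (w0.map f) := by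
    rw [mortal_trans]
    simpa using hw0
  refine ⟨trans e f (sto M (⟨0, hM⟩, false) r), trans_inj e f _ (sto_inj M _ r),
    ⟨_, hmort⟩, ?_⟩
  have hne : {k : ℕ | ∃ w : List (Fin 2), Mortal (trans e f (sto M (⟨0, hM⟩, false) r)) w ∧
      w.length = k}.Nonempty := ⟨_, w0.map f, hmort, rfl⟩
  obtain ⟨w, hw, hl⟩ := Nat.sInf_mem hne
  have h1 : (M : ℝ) ^ (1.3 : ℝ) / 2240 ≤ (threshold (trans e f (sto M (⟨0, hM⟩, false) r)) : ℝ) + 1 := by
    have h2 := (mortal_trans e f _ w).1 hw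
    have h3 := stor_bound M k (w.map f.symm) (⟨0, hM⟩, false)
      (fun q => sto_run_hit M _ r _ q (h2 (Sum.inl q)))
    rw [List.length_map, hl] at h3
    exact le_len M k _ hM40 hk1 hk2 h3
  have hnr : (80000 : ℝ) ≤ n := by exact_mod_cast hn
  have hn0 : (0 : ℝ) < n := by linarith
  have hM4 : (n : ℝ) / 4 ≤ M := by
    have : n ≤ 4 * M := by omega
    have : (n : ℝ) ≤ 4 * M := by exact_mod_cast this
    linarith
  have h2 : (n : ℝ) ^ (1.3 : ℝ) / 16 ≤ (M : ℝ) ^ (1.3 : ℝ) := by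
    calc (n : ℝ) ^ (1.3 : ℝ) / 16 ≤ (n : ℝ) ^ (1.3 : ℝ) / (4 : ℝ) ^ (1.3 : ℝ) := by
          apply div_le_div_of_nonneg_left (by positivity) (by positivity)
          calc (4 : ℝ) ^ (1.3 : ℝ) ≤ (4 : ℝ) ^ (2 : ℝ) :=
                Real.rpow_le_rpow_of_exponent_le (by norm_num) (by norm_num)
            _ = 16 := by
                rw [show (2 : ℝ) = ((2 : ℕ) : ℝ) by norm_num, Real.rpow_natCast]; norm_num
      _ = ((n : ℝ) / 4) ^ (1.3 : ℝ) := (Real.div_rpow hn0.le (by norm_num) _).symm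
      _ ≤ _ := Real.rpow_le_rpow (by positivity) hM4 (by norm_num)
  have h3 : (n : ℝ) ≤ (n : ℝ) ^ (1.3 : ℝ) := by
    calc (n : ℝ) = (n : ℝ) ^ (1 : ℝ) := (Real.rpow_one _).symm
      _ ≤ _ := Real.rpow_le_rpow_of_exponent_le (by linarith) (by norm_num)
  have h4 : (1 : ℝ) ≤ (n : ℝ) ^ (1.3 : ℝ) / 80000 := by
    rw [le_div_iff₀ (by norm_num)]; linarith
  have h5 : (n : ℝ) ^ (1.3 : ℝ) / 35840 ≤ (M : ℝ) ^ (1.3 : ℝ) / 2240 := by
    have := div_le_div_of_nonneg_right h2 (show (0 : ℝ) ≤ 2240 by norm_num)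
    rw [div_div] at this
    norm_num at this ⊢
    exact this
  have h6 : (n : ℝ) ^ (1.3 : ℝ) / 80000 + (n : ℝ) ^ (1.3 : ℝ) / 80000 ≤
      (n : ℝ) ^ (1.3 : ℝ) / 35840 := by
    have : (0 : ℝ) ≤ (n : ℝ) ^ (1.3 : ℝ) := by positivity
    linarith
  linarith

end MPe1e800INJ
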