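import Pool.Agent.Lib.MP_e1e800_lc_INJ.Aut

/-!
# MP_e1e800_lc, injective letters: the final upper bounds
-/

namespace MPe1e800INJ

open Finset MPe1e800

theorem main_bound' {Q A : Type} [Fintype Q] [Fintype A] (n m : ℕ) (hcn : Fintype.card Q = n)
    (hcm : Fintype.card A = m) (δ : Q → A → Option Q) (h : InjLetters δ)
    (hm : ∃ w : List A, Mortal δ w) :
    (threshold δ : ℝ) ≤ 20 * Real.sqrt m * (n : ℝ) ^ (3 / 2 : ℝ) * Real.log (n + 1) := by
  rcases Nat.eq_zero_or_pos n with h0 | hn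
  · have he : IsEmpty Q := Fintype.card_eq_zero_iff.1 (by omega)
    have h1 : threshold δ ≤ ([] : List A).length :=
      Nat.sInf_le ⟨[], fun q => (he.false q).elim, rfl⟩
    have h2 : threshold δ = 0 := by simpa using h1
    rw [h2, h0]
    simp
  · have hne : Nonempty Q := Fintype.card_pos_iff.1 (by omega)
    obtain ⟨q0⟩ := id hne
    obtain ⟨M, hV, hd, hd'⟩ := exists_sys δ h hm
    have hcardQ : (Fintype.card Q : ℝ) = n := by rw [hcn]
    have hcardX : (Fintype.card A : ℝ) = m := by rw [hcm]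
    have hrank : ∀ q, cost δ {q} ≤ Fintype.card Q := by
      intro q
      have := rank_le M hd q
      rw [hd'] at this
      exact this
    have hgr := greedy δ hm hrank
    rw [hcn] at hgr
    have hnr : (1 : ℝ) ≤ n := by exact_mod_cast hn
    have hm1 : 1 ≤ m := by
      have : 0 < Fintype.card A := Fintype.card_pos_iff.2 ⟨M.lab q0⟩
      omega
    have hmr : (1 : ℝ) ≤ m := by exact_mod_cast hm1
    set L := Real.log ((n : ℝ) + 1) with hL
    have hL1 : (2 / 3 : ℝ) ≤ L := by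
      have h1 : Real.log 2 ≤ L := Real.log_le_log (by norm_num) (by linarith)
      have := Real.log_two_gt_d9
      linarith
    have hL0 : 0 < L := by linarith
    set B : ℝ := 1 + (n : ℝ) * n with hB
    have hBV : ∀ S, 1 + (M.V S : ℝ) ≤ B := by
      intro S
      have h1 : M.V S ≤ n * n := by
        rw [hV]
        exact (cost_mono hm S Set.univ (Set.subset_univ S)).trans hgr
      have h2 : (M.V S : ℝ) ≤ (n : ℝ) * n := by exact_mod_cast h1
      rw [hB]; linarith
    have hlogB : Real.log B ≤ 2 * L := by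
      have h1 : B ≤ ((n : ℝ) + 1) ^ 2 := by rw [hB]; nlinarith
      have h2 : Real.log (((n : ℝ) + 1) ^ 2) = 2 * L := by
        rw [Real.log_pow]; push_cast; ring
      rw [← h2]
      exact Real.log_le_log (by positivity) h1
    set K : ℝ := 2 * m * L with hK
    have hK0 : 0 < K := by positivity
    have hBK : (Fintype.card A : ℝ) * Real.log B ≤ K := by
      rw [hcardX, hK]
      have := mul_le_mul_of_nonneg_left hlogB (show (0 : ℝ) ≤ m by linarith)
      linarith
    have hV0 : M.V ∅ = 0 := by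
      rw [hV]
      have : cost δ ∅ ≤ ([] : List A).length := cost_le (by simp)
      simpa using this
    set k : ℕ := ⌈2 * (n : ℝ) * L⌉₊ with hk
    have hk1 : 2 * (n : ℝ) * L ≤ k := Nat.le_ceil _
    have hk2 : (k : ℝ) ≤ 7 / 2 * (n * L) := by
      have h1 : (k : ℝ) < 2 * (n : ℝ) * L + 1 := Nat.ceil_lt_add_one (by positivity)
      have h2 : (1 : ℝ) ≤ 3 / 2 * (n * L) := by nlinarith
      linarith
    have hcov : (Fintype.card Q : ℝ) * Real.exp (-(k / (Fintype.card Q : ℝ))) ≤
        1 - 3 / 4 := by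
      rw [hcardQ]
      have h1 : Real.exp (-((k : ℝ) / n)) ≤ Real.exp (-(2 * L)) := by
        apply Real.exp_le_exp.2
        have : 2 * L ≤ (k : ℝ) / n := by
          rw [le_div_iff₀ (by linarith)]; linarith
        linarith
      have h2 : Real.exp (-(2 * L)) = 1 / ((n : ℝ) + 1) ^ 2 := by
        rw [Real.exp_neg, two_mul, Real.exp_add, hL, Real.exp_log (by positivity)]
        rw [one_div, sq]
      rw [h2] at h1
      have h3 := mul_le_mul_of_nonneg_left h1 (show (0 : ℝ) ≤ n by linarith)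
      refine h3.trans ?_
      rw [mul_one_div, div_le_iff₀ (by positivity)]
      nlinarith [sq_nonneg ((n : ℝ) - 1)]
    have h1 := M.V_univ_le k (3 / 4) hcov
    have h2 := M.C_le B K hBV hK0 hBK hV0 k
    rw [hcardQ] at h2
    have hthr : (M.V Set.univ : ℝ) = (threshold δ : ℝ) := by
      rw [hV, cost_univ]
      exact hm
    rw [hthr] at h1
    -- the square root
    have h3 : Real.sqrt (K * k) ≤ 53 / 20 * (Real.sqrt m * Real.sqrt n * L) := by
      apply Real.sqrt_le_iff.2
      constructor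
      · positivity
      · have e1 : Real.sqrt m ^ 2 = m := Real.sq_sqrt (by linarith)
        have e2 : Real.sqrt n ^ 2 = n := Real.sq_sqrt (by linarith)
        have e3 : (53 / 20 * (Real.sqrt m * Real.sqrt n * L)) ^ 2 =
            (53 / 20) ^ 2 * (Real.sqrt m ^ 2) * (Real.sqrt n ^ 2) * L ^ 2 := by ring
        rw [e3, e1, e2, hK]
        have e4 : 2 * (m : ℝ) * L * k ≤ 2 * m * L * (7 / 2 * (n * L)) :=
          mul_le_mul_of_nonneg_left hk2 (by positivity)
        refine e4.trans ?_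
        have e5 : (0 : ℝ) ≤ m * n * L ^ 2 := by positivity
        nlinarith
    have h4 : (n : ℝ) ^ (3 / 2 : ℝ) = n * Real.sqrt n := by
      rw [show (3 / 2 : ℝ) = 1 + 1 / 2 by norm_num, Real.rpow_add (by linarith), Real.rpow_one,
        Real.sqrt_eq_rpow]
    have hsm : 1 ≤ Real.sqrt m := by
      rw [show (1 : ℝ) = Real.sqrt 1 by simp]
      exact Real.sqrt_le_sqrt hmr
    have hsn : 1 ≤ Real.sqrt n := by
      rw [show (1 : ℝ) = Real.sqrt 1 by simp]
      exact Real.sqrt_le_sqrt hnr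
    have h5 : (k : ℝ) ≤ 7 / 2 * (Real.sqrt m * (n * Real.sqrt n) * L) := by
      refine hk2.trans ?_
      have : (n : ℝ) * L * 1 ≤ n * L * (Real.sqrt m * Real.sqrt n) :=
        mul_le_mul_of_nonneg_left (by nlinarith) (by positivity)
      nlinarith
    have h6 : 4 * (n : ℝ) * Real.sqrt (K * k) ≤
        53 / 5 * (Real.sqrt m * (n * Real.sqrt n) * L) := by
      have := mul_le_mul_of_nonneg_left h3 (show (0 : ℝ) ≤ 4 * n by linarith)
      nlinarith
    rw [h4]
    have h7 : (0 : ℝ) ≤ Real.sqrt m * (n * Real.sqrt n) * L := by positivity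
    nlinarith

theorem main_bound (n m : ℕ) (δ : Fin n → Fin m → Option (Fin n)) (h : InjLetters δ)
    (hm : ∃ w : List (Fin m), Mortal δ w) :
    (threshold δ : ℝ) ≤ 20 * Real.sqrt m * (n : ℝ) ^ (3 / 2 : ℝ) * Real.log (n + 1) :=
  main_bound' n m (by simp) (by simp) δ h hm

theorem log_bound : ∃ C : ℝ, ∀ n : ℕ,
    20 * Real.sqrt 2 * Real.sqrt n * Real.log (n + 1) ≤ 7 * (n : ℝ) / 16 + C := by
  refine ⟨7 / 16 + 120 * 300 ^ 3, ?_⟩
  intro n
  have hn : (0 : ℝ) ≤ n := by positivity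
  set y : ℝ := ((n : ℝ) + 1) ^ (1 / 4 : ℝ) with hy
  have hy0 : 0 ≤ y := by positivity
  have hy4 : y ^ 4 = (n : ℝ) + 1 := by
    rw [hy, ← Real.rpow_natCast, ← Real.rpow_mul (by positivity)]
    norm_num
  have h1 : Real.log ((n : ℝ) + 1) ≤ 4 * y := by
    have := Real.log_le_rpow_div (show (0 : ℝ) ≤ (n : ℝ) + 1 by positivity)
      (show (0 : ℝ) < 1 / 4 by norm_num)
    rw [← hy] at this
    linarith
  have h2 : Real.sqrt n ≤ y ^ 2 := by
    apply Real.sqrt_le_iff.2
    constructor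
    · positivity
    · have : (y ^ 2) ^ 2 = y ^ 4 := by ring
      rw [this, hy4]; linarith
  have h3 : Real.sqrt 2 ≤ 3 / 2 := by
    apply Real.sqrt_le_iff.2
    constructor <;> norm_num
  have hlog : 0 ≤ Real.log ((n : ℝ) + 1) := Real.log_nonneg (by linarith)
  have h4 : 20 * Real.sqrt 2 * Real.sqrt n * Real.log (n + 1) ≤ 120 * y ^ 3 := by
    calc 20 * Real.sqrt 2 * Real.sqrt n * Real.log (n + 1)
        ≤ 20 * (3 / 2) * y ^ 2 * (4 * y) := by gcongr
      _ = 120 * y ^ 3 := by ring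
  refine h4.trans ?_
  have h5 : 7 * (n : ℝ) / 16 = 7 / 16 * (y ^ 4 - 1) := by rw [hy4]; ring
  rw [h5]
  by_cases h : y ≤ 300
  · have h6 : y ^ 3 ≤ 300 ^ 3 := pow_le_pow_left₀ hy0 h 3
    have h7 : 0 ≤ y ^ 4 := by positivity
    nlinarith
  · have h := not_le.1 h
    have h6 : 0 ≤ y ^ 3 := by positivity
    have h7 : y ^ 4 = y * y ^ 3 := by ring
    rw [h7]
    nlinarith [mul_nonneg h6 (sub_nonneg.2 h.le)]

theorem conj_bound : ∃ C : ℝ, ∀ (n : ℕ) (δ : Fin n → Fin 2 → Option (Fin n)), InjLetters δ →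
    (∃ w : List (Fin 2), Mortal δ w) → (threshold δ : ℝ) ≤ 7 * (n : ℝ) ^ 2 / 16 + C * n := by
  obtain ⟨C, hC⟩ := log_bound
  refine ⟨C, fun n δ h hm => ?_⟩
  have h1 := main_bound n 2 δ h hm
  have hn : (0 : ℝ) ≤ n := by positivity
  have h4 : (n : ℝ) ^ (3 / 2 : ℝ) = n * Real.sqrt n := by
    rcases hn.eq_or_lt with h0 | h0
    · rw [← h0]
      rw [Real.zero_rpow (by norm_num)]; simp
    · rw [show (3 / 2 : ℝ) = 1 + 1 / 2 by norm_num, Real.rpow_add h0, Real.rpow_one,
        Real.sqrt_eq_rpow]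
  rw [h4] at h1
  have h5 := mul_le_mul_of_nonneg_left (hC n) hn
  have h6 : 20 * Real.sqrt ((2 : ℕ) : ℝ) * (n * Real.sqrt n) * Real.log (n + 1) =
      n * (20 * Real.sqrt 2 * Real.sqrt n * Real.log (n + 1)) := by push_cast; ring
  rw [h6] at h1
  nlinarith

end MPe1e800INJ
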