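import Pool.Agent.Lib.MP_e1e800_lc_INJ.Num

/-!
# MP_e1e800_lc, injective letters: letters injective inside the strongly connected components
-/

namespace MPe1e800INJ

open Finset MPe1e800

/-- `q` is reachable from `p`. -/
def Reach {Q A : Type} (δ : Q → A → Option Q) (p q : Q) : Prop := ∃ w : List A, run δ p w = some q

/-- No letter merges two states of a strongly connected component inside that component: if
`p · x = q · x = r` and `p`, `q` are both reachable from `r`, then `p = q`. -/
def SccInj {Q A : Type} (δ : Q → A → Option Q) : Prop :=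
  ∀ (x : A) (p q r : Q), δ p x = some r → δ q x = some r → Reach δ r p → Reach δ r q → p = q

theorem InjLetters.sccInj {Q A : Type} {δ : Q → A → Option Q} (h : InjLetters δ) : SccInj δ :=
  fun x p q r hp hq _ _ => h x p q r hp hq

section

variable {Q A : Type} (δ : Q → A → Option Q) (c : Q → ℕ)

/-- The restriction of the automaton to the level `i` of `c`. -/
def lev (i : ℕ) : {q : Q // c q = i} → A → Option {q : Q // c q = i} := fun q x =>
  (δ q.1 x).bind fun r => if h : c r = i then some ⟨r, h⟩ else none

theorem lev_some (i : ℕ) (q r : {q : Q // c q = i}) (x : A) :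
    lev δ c i q x = some r ↔ δ q.1 x = some r.1 := by
  unfold lev
  cases h : δ q.1 x with
  | none => simp
  | some s =>
    simp only [Option.bind_some, Option.some.injEq]
    constructor
    · intro h2
      split_ifs at h2 with h3
      have := Option.some.inj h2
      rw [← this]
    · intro h2
      subst h2
      rw [dif_pos r.2]

theorem lev_none (i : ℕ) (q : {q : Q // c q = i}) (x : A) (h : lev δ c i q x = none) :
    δ q.1 x = none ∨ ∃ s, δ q.1 x = some s ∧ c s ≠ i := by
  unfold lev at h
  cases hs : δ q.1 x with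
  | none => exact Or.inl rfl
  | some s =>
    right
    refine ⟨s, rfl, fun hc => ?_⟩
    rw [hs] at h
    simp [hc] at h

variable (hc : ∀ x q r, δ q x = some r → c r ≤ c q)

include hc

theorem run_level (w : List A) : ∀ q r, run δ q w = some r → c r ≤ c q := by
  induction w with
  | nil => intro q r h; rw [run_nil'] at h; rw [Option.some.inj h]
  | cons x w ih =>
    intro q r h
    cases hs : δ q x with
    | none => rw [run_cons_none δ q x w hs] at h; exact absurd h (by simp)
    | some s =>
      rw [run_cons_some δ q s x w hs] at h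
      exact (ih s r h).trans (hc x q s hs)

theorem lev_kill (i : ℕ) (w : List A) : ∀ q : {q : Q // c q = i}, run (lev δ c i) q w = none →
    run δ q.1 w = none ∨ ∃ s, run δ q.1 w = some s ∧ c s < i := by
  induction w with
  | nil => intro q h; rw [run_nil'] at h; exact absurd h (by simp)
  | cons x w ih =>
    intro q h
    cases hs : lev δ c i q x with
    | none =>
      rcases lev_none δ c i q x hs with h1 | ⟨s, h1, h2⟩
      · exact Or.inl (run_cons_none δ q.1 x w h1)
      · have h3 : c s < i := by
          have := hc x q.1 s h1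
          rw [q.2] at this
          omega
        rw [run_cons_some δ q.1 s x w h1]
        cases h4 : run δ s w with
        | none => exact Or.inl rfl
        | some t =>
          right
          exact ⟨t, rfl, lt_of_le_of_lt (run_level δ c hc w s t h4) h3⟩
    | some s =>
      rw [run_cons_some _ q s x w hs] at h
      rw [run_cons_some δ q.1 s.1 x w ((lev_some δ c i q s x).1 hs)]
      exact ih s h

omit hc in
theorem lev_run (i : ℕ) (w : List A) : ∀ q r : {q : Q // c q = i}, run (lev δ c i) q w = some r →
    run δ q.1 w = some r.1 := by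
  induction w with
  | nil => intro q r h; rw [run_nil'] at h ⊢; rw [Option.some.inj h]
  | cons x w ih =>
    intro q r h
    cases hs : lev δ c i q x with
    | none => rw [run_cons_none _ q x w hs] at h; exact absurd h (by simp)
    | some s =>
      rw [run_cons_some _ q s x w hs] at h
      rw [run_cons_some δ q.1 s.1 x w ((lev_some δ c i q s x).1 hs)]
      exact ih s r h

omit hc in
theorem lev_mortal (i : ℕ) (w : List A) (hw : Mortal δ w) : Mortal (lev δ c i) w := by
  intro q
  cases h : run (lev δ c i) q w with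
  | none => rfl
  | some r =>
    have := lev_run δ c i w q r h
    rw [hw q.1] at this
    exact absurd this (by simp)

theorem exists_word (N : ℕ) (hN : ∀ q, c q ≤ N) (v : ℕ → List A)
    (hv : ∀ i, Mortal (lev δ c i) (v i)) :
    ∃ u : List A, u.length = ∑ i ∈ Finset.range (N + 1), (v i).length ∧ Mortal δ u := by
  have key : ∀ t : ℕ, t ≤ N + 1 → ∃ u : List A,
      u.length = ∑ i ∈ Finset.range t, (v (N - i)).length ∧
      ∀ q, run δ q u = none ∨ ∃ r, run δ q u = some r ∧ c r + t ≤ N := by
    intro t
    induction t with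
    | zero =>
      intro _
      refine ⟨[], by simp, fun q => Or.inr ⟨q, rfl, ?_⟩⟩
      have := hN q
      omega
    | succ t ih =>
      intro ht
      obtain ⟨u, hl, hu⟩ := ih (by omega)
      refine ⟨u ++ v (N - t), by rw [List.length_append, hl, Finset.sum_range_succ], fun q => ?_⟩
      rcases hu q with h | ⟨r, h1, h2⟩
      · exact Or.inl (run_append_none δ q u _ h)
      · rw [run_append_some δ q r u _ h1]
        by_cases hcr : c r = N - t
        · rcases lev_kill δ c hc (N - t) (v (N - t)) ⟨r, hcr⟩ (hv (N - t) ⟨r, hcr⟩) with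
            h3 | ⟨s, h3, h4⟩
          · exact Or.inl h3
          · exact Or.inr ⟨s, h3, by omega⟩
        · cases h3 : run δ r (v (N - t)) with
          | none => exact Or.inl rfl
          | some s =>
            have := run_level δ c hc _ r s h3
            exact Or.inr ⟨s, rfl, by omega⟩
  obtain ⟨u, hl, hu⟩ := key (N + 1) le_rfl
  refine ⟨u, ?_, fun q => ?_⟩
  · rw [hl]
    exact Finset.sum_range_reflect (fun i => (v i).length) (N + 1)
  · rcases hu q with h | ⟨r, h1, h2⟩
    · exact h
    · omega

end

theorem scc_bound' {Q A : Type} [Fintype Q] [Fintype A] (n m : ℕ) (hcn : Fintype.card Q = n)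
    (hcm : Fintype.card A = m) (δ : Q → A → Option Q) (h : SccInj δ)
    (hm : ∃ w : List A, Mortal δ w) :
    (threshold δ : ℝ) ≤ 20 * Real.sqrt m * (n : ℝ) ^ (3 / 2 : ℝ) * Real.log (n + 1) := by
  classical
  let R : Q → Finset Q := fun q => univ.filter (fun r => Reach δ q r)
  let c : Q → ℕ := fun q => (R q).card
  have hsub : ∀ x q r, δ q x = some r → R r ⊆ R q := by
    intro x q r hq s hs
    simp only [R, Finset.mem_filter, Finset.mem_univ, true_and] at hs ⊢
    obtain ⟨w, hw⟩ := hs
    exact ⟨x :: w, by rw [run_cons_some δ q r x w hq]; exact hw⟩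
  have hc : ∀ x q r, δ q x = some r → c r ≤ c q := fun x q r hq =>
    Finset.card_le_card (hsub x q r hq)
  have hself : ∀ q, q ∈ R q := by
    intro q
    simp only [R, Finset.mem_filter, Finset.mem_univ, true_and]
    exact ⟨[], rfl⟩
  have hback : ∀ x q r, δ q x = some r → c r = c q → Reach δ r q := by
    intro x q r hq hcr
    have h1 : R r = R q := Finset.eq_of_subset_of_card_le (hsub x q r hq) (by
      show c q ≤ c r
      omega)
    have h2 := hself q
    rw [← h1] at h2
    simpa [R] using h2
  have hinj : ∀ i, InjLetters (lev δ c i) := by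
    intro i x p q r hp hq
    have hp' := (lev_some δ c i p r x).1 hp
    have hq' := (lev_some δ c i q r x).1 hq
    apply Subtype.ext
    exact h x p.1 q.1 r.1 hp' hq'
      (hback x p.1 r.1 hp' (by rw [r.2, p.2])) (hback x q.1 r.1 hq' (by rw [r.2, q.2]))
  obtain ⟨w0, hw0⟩ := hm
  have hmi : ∀ i, ∃ w : List A, Mortal (lev δ c i) w := fun i => ⟨w0, lev_mortal δ c i w0 hw0⟩
  have hopt : ∀ i, ∃ w : List A, Mortal (lev δ c i) w ∧ w.length = threshold (lev δ c i) := by
    intro i
    exact Nat.sInf_mem (s := {k : ℕ | ∃ w : List A, Mortal (lev δ c i) w ∧ w.length = k})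
      (by obtain ⟨w, hw⟩ := hmi i; exact ⟨w.length, w, hw, rfl⟩)
  choose v hv hvl using hopt
  have hN : ∀ q, c q ≤ n := by
    intro q
    rw [← hcn]
    exact Finset.card_le_univ _
  obtain ⟨u, hul, hu⟩ := exists_word δ c hc n hN v hv
  have h1 : threshold δ ≤ u.length := Nat.sInf_le ⟨u, hu, rfl⟩
  have h2 : (threshold δ : ℝ) ≤ ∑ i ∈ Finset.range (n + 1), (threshold (lev δ c i) : ℝ) := by
    have : threshold δ ≤ ∑ i ∈ Finset.range (n + 1), threshold (lev δ c i) := by
      rw [hul] at h1
      refine h1.trans (le_of_eq ?_)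
      exact Finset.sum_congr rfl fun i _ => hvl i
    exact_mod_cast this
  refine h2.trans ?_
  have hlog : 0 ≤ Real.log ((n : ℝ) + 1) := Real.log_nonneg (by
    have : (0 : ℝ) ≤ n := by positivity
    linarith)
  set ni : ℕ → ℕ := fun i => Fintype.card {q : Q // c q = i} with hni
  have hnin : ∀ i, ni i ≤ n := by
    intro i
    rw [← hcn]
    exact Fintype.card_subtype_le _
  have hpow : ∀ t : ℕ, (t : ℝ) ^ (3 / 2 : ℝ) = t * Real.sqrt t := by
    intro t
    rcases Nat.eq_zero_or_pos t with h0 | h0
    · subst h0
      norm_num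
    · have ht : (0 : ℝ) < t := by exact_mod_cast h0
      rw [show (3 / 2 : ℝ) = 1 + 1 / 2 by norm_num, Real.rpow_add ht, Real.rpow_one,
        Real.sqrt_eq_rpow]
  have h3 : ∀ i, (threshold (lev δ c i) : ℝ) ≤
      20 * Real.sqrt m * ((ni i : ℝ) * Real.sqrt n) * Real.log (n + 1) := by
    intro i
    have h4 := main_bound' (ni i) m rfl hcm (lev δ c i) (hinj i) (hmi i)
    rw [hpow] at h4
    have h5 : ((ni i : ℕ) : ℝ) ≤ n := by exact_mod_cast hnin i
    have h6 : Real.sqrt (ni i) ≤ Real.sqrt n := Real.sqrt_le_sqrt h5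
    have h7 : Real.log ((ni i : ℝ) + 1) ≤ Real.log (n + 1) :=
      Real.log_le_log (by positivity) (by linarith)
    have h8 : 0 ≤ Real.log ((ni i : ℝ) + 1) := Real.log_nonneg (by
      have : (0 : ℝ) ≤ ni i := by positivity
      linarith)
    refine h4.trans ?_
    gcongr
  refine (Finset.sum_le_sum fun i _ => h3 i).trans (le_of_eq ?_)
  rw [← Finset.sum_mul, ← Finset.mul_sum, ← Finset.sum_mul, hpow]
  congr 2
  congr 1
  have h8 : ∑ i ∈ Finset.range (n + 1), ni i = n := by
    have h9 := Finset.card_eq_sum_card_fiberwise (s := (univ : Finset Q))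
      (t := Finset.range (n + 1)) (f := c) (by
        intro q _
        simp only [Finset.coe_range, Set.mem_Iio]
        have := hN q
        omega)
    rw [Finset.card_univ, hcn] at h9
    conv_rhs => rw [h9]
    apply Finset.sum_congr rfl
    intro i _
    rw [hni]
    simp only
    rw [Fintype.card_subtype]
  exact_mod_cast congrArg (Nat.cast (R := ℝ)) h8

theorem scc_bound (n m : ℕ) (δ : Fin n → Fin m → Option (Fin n)) (h : SccInj δ)
    (hm : ∃ w : List (Fin m), Mortal δ w) :
    (threshold δ : ℝ) ≤ 20 * Real.sqrt m * (n : ℝ) ^ (3 / 2 : ℝ) * Real.log (n + 1) :=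
  scc_bound' n m (by simp) (by simp) δ h hm

theorem scc_conj : ∃ C : ℝ, ∀ (n : ℕ) (δ : Fin n → Fin 2 → Option (Fin n)), SccInj δ →
    (∃ w : List (Fin 2), Mortal δ w) → (threshold δ : ℝ) ≤ 7 * (n : ℝ) ^ 2 / 16 + C * n := by
  obtain ⟨C, hC⟩ := log_bound
  refine ⟨C, fun n δ h hm => ?_⟩
  have h1 := scc_bound n 2 δ h hm
  have hn : (0 : ℝ) ≤ n := by positivity
  have h4 : (n : ℝ) ^ (3 / 2 : ℝ) = n * Real.sqrt n := by
    rcases hn.eq_or_lt with h0 | h0
    · rw [← h0]
      rw [Real.zero_rpow (by norm_num)]; simp
    · rw [show (3 / 2 : ℝ) = 1 + 1 / 2 by norm_num, Real.rpow_add h0, Real.rpow_one,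
        Real.sqrt_eq_rpow]
  rw [h4] at h1
  have h5 := mul_le_mul_of_nonneg_left (hC n) hn
  have h6 : 20 * Real.sqrt ((2 : ℕ) : ℝ) * (n * Real.sqrt n) * Real.log (n + 1) =
      n * (20 * Real.sqrt 2 * Real.sqrt n * Real.log (n + 1)) := by push_cast; ring
  rw [h6] at h1
  nlinarith

end MPe1e800INJ
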