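import Pool.Agent.Lib.MP_e1e800_lc_INJ.Ent

/-!
# MP_e1e800_lc, injective letters: summation and covering
-/

namespace MPe1e800INJ

open Finset

set_option linter.unusedSectionVars false

variable {Q X : Type} [Fintype Q] [Fintype X]

namespace Sys

variable (M : Sys Q X)

theorem Xs_le_sqrt [Nonempty Q] (k : ℕ) (B K : ℝ) (hB : ∀ S, 1 + (M.V S : ℝ) ≤ B)
    (hK : 0 < K) (hBK : (Fintype.card X : ℝ) * Real.log B ≤ K) :
    M.Xs k ≤ (Fintype.card Q : ℝ) * (2 * Real.sqrt (K / (k + 1))) := by
  have hk : (0 : ℝ) < (k : ℝ) + 1 := by positivity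
  have hn : (0 : ℝ) ≤ (Fintype.card Q : ℝ) := by positivity
  by_cases h : K ≤ k + 1
  · set lam := Real.sqrt (K / (k + 1)) with hlam
    have h0 : 0 < lam := Real.sqrt_pos.2 (by positivity)
    have h2 : lam ^ 2 = K / (k + 1) := Real.sq_sqrt (by positivity)
    have h1 : lam ≤ 1 := by
      have : lam ^ 2 ≤ 1 := by
        rw [h2, div_le_one hk]; exact h
      nlinarith
    refine (M.Xs_le k B hB lam h0 h1).trans ?_
    apply mul_le_mul_of_nonneg_left _ hn
    have h3 : (Fintype.card X : ℝ) * Real.log B / ((k + 1) * lam) ≤ lam := by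
      rw [div_le_iff₀ (by positivity)]
      have : lam * ((k + 1) * lam) = K := by
        have : lam * ((k + 1) * lam) = (k + 1) * lam ^ 2 := by ring
        rw [this, h2]; field_simp
      rw [this]; exact hBK
    linarith
  · have h := not_le.1 h
    refine (M.Xs_le_card k).trans ?_
    have h1 : 1 ≤ Real.sqrt (K / (k + 1)) := by
      apply Real.le_sqrt_of_sq_le
      rw [le_div_iff₀ hk]; linarith
    nlinarith

theorem C_zero_le [Nonempty Q] : M.C 0 = (M.V ∅ : ℝ) := by
  unfold C
  have : (fun P : Fin 0 → Q => (M.V (Set.range P) : ℝ)) = fun _ => (M.V ∅ : ℝ) := by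
    funext P
    rw [Set.range_eq_empty]
  rw [this, av_const]

theorem C_le [Nonempty Q] (B K : ℝ) (hB : ∀ S, 1 + (M.V S : ℝ) ≤ B)
    (hK : 0 < K) (hBK : (Fintype.card X : ℝ) * Real.log B ≤ K) (h0 : M.V ∅ = 0) (k : ℕ) :
    M.C k ≤ k + 4 * (Fintype.card Q : ℝ) * Real.sqrt (K * k) := by
  induction k with
  | zero => rw [C_zero_le, h0]; simp
  | succ k ih =>
    have h1 := M.C_rec k
    have h2 := M.Xs_le_sqrt k B K hB hK hBK
    have hk : (0 : ℝ) < (k : ℝ) + 1 := by positivity
    have hk0 : (0 : ℝ) ≤ (k : ℝ) := by positivity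
    have hn : (0 : ℝ) ≤ (Fintype.card Q : ℝ) := by positivity
    have h3 : 4 * Real.sqrt (K * k) + 2 * Real.sqrt (K / (k + 1)) ≤ 4 * Real.sqrt (K * (k + 1)) := by
      rw [Real.sqrt_mul hK.le, Real.sqrt_mul hK.le, Real.sqrt_div hK.le]
      have hsK := Real.sqrt_nonneg K
      set a := Real.sqrt (k : ℝ) with ha
      set b := Real.sqrt ((k : ℝ) + 1) with hb
      have ha2 : a ^ 2 = k := Real.sq_sqrt hk0
      have hb2 : b ^ 2 = k + 1 := Real.sq_sqrt hk.le
      have hb0 : 0 < b := Real.sqrt_pos.2 hk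
      have ha0 : 0 ≤ a := Real.sqrt_nonneg _
      have h4 : 4 * a + 2 / b ≤ 4 * b := by
        have h5 : 2 / b ≤ 4 * (b - a) := by
          rw [div_le_iff₀ hb0]
          nlinarith [sq_nonneg (b - a)]
        linarith
      have h6 : 4 * (Real.sqrt K * a) + 2 * (Real.sqrt K / b) = Real.sqrt K * (4 * a + 2 / b) := by
        ring
      have h7 : 4 * (Real.sqrt K * b) = Real.sqrt K * (4 * b) := by ring
      rw [h6, h7]
      exact mul_le_mul_of_nonneg_left h4 hsK
    have h4 := mul_le_mul_of_nonneg_left h3 hn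
    push_cast
    nlinarith

theorem V_univ_le [Nonempty Q] (k : ℕ) (t : ℝ)
    (ht : (Fintype.card Q : ℝ) * Real.exp (-(k / (Fintype.card Q : ℝ))) ≤ 1 - t) :
    (M.V Set.univ : ℝ) * t ≤ M.C k := by
  classical
  set n : ℝ := (Fintype.card Q : ℝ) with hn
  have hn0 : 0 < n := by rw [hn]; exact_mod_cast Fintype.card_pos
  have hn1 : 1 ≤ n := by
    rw [hn]; exact_mod_cast Fintype.card_pos
  have hV : (0 : ℝ) ≤ (M.V Set.univ : ℝ) := by positivity
  -- pointwise
  have h1 : ∀ P : Fin k → Q, (M.V Set.univ : ℝ) * (1 - ∑ q : Q, ∏ i, (if P i = q then (0 : ℝ) else 1)) ≤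
      (M.V (Set.range P) : ℝ) := by
    intro P
    by_cases hs : Set.range P = Set.univ
    · rw [hs]
      have : 0 ≤ ∑ q : Q, ∏ i, (if P i = q then (0 : ℝ) else 1) := by
        apply Finset.sum_nonneg
        intro q _
        apply Finset.prod_nonneg
        intro i _
        split_ifs <;> norm_num
      nlinarith
    · have : ∃ q, q ∉ Set.range P := by
        by_contra hc
        exact hs (Set.eq_univ_of_forall fun q => by
          by_contra h
          exact hc ⟨q, h⟩)
      obtain ⟨q, hq⟩ := this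
      have h2 : (1 : ℝ) ≤ ∑ q : Q, ∏ i, (if P i = q then (0 : ℝ) else 1) := by
        have h3 : ∏ i, (if P i = q then (0 : ℝ) else 1) = 1 := by
          apply Finset.prod_eq_one
          intro i _
          rw [if_neg]
          intro h
          exact hq ⟨i, h⟩
        refine h3.symm.le.trans ?_
        apply Finset.single_le_sum (f := fun q => ∏ i, (if P i = q then (0 : ℝ) else 1))
          (fun q _ => ?_) (Finset.mem_univ q)
        apply Finset.prod_nonneg
        intro i _
        split_ifs <;> norm_num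
      have h4 : (0 : ℝ) ≤ (M.V (Set.range P) : ℝ) := by positivity
      nlinarith
  have h2 := av_le k h1
  have h3 : av Q k (fun P => (M.V Set.univ : ℝ) *
      (1 - ∑ q : Q, ∏ i, (if P i = q then (0 : ℝ) else 1))) =
      (M.V Set.univ : ℝ) * (1 - n * ((n - 1) / n) ^ k) := by
    rw [av_mul_left, av_sub, av_const, av_sum]
    congr 2
    have h4 : ∀ q : Q, av Q k (fun P => ∏ i, (if P i = q then (0 : ℝ) else 1)) =
        ((n - 1) / n) ^ k := by
      intro q
      rw [av_prod k (fun r => if r = q then (0 : ℝ) else 1)]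
      congr 2
      have : ∑ r : Q, (if r = q then (0 : ℝ) else 1) = ∑ r : Q, ((1 : ℝ) - if r = q then 1 else 0) := by
        apply Finset.sum_congr rfl
        intro r _
        split_ifs <;> norm_num
      rw [this, Finset.sum_sub_distrib]
      simp [hn]
    rw [Finset.sum_congr rfl fun q _ => h4 q, Finset.sum_const, Finset.card_univ, nsmul_eq_mul]
  have h5 : ((n - 1) / n) ^ k ≤ Real.exp (-(k / n)) := by
    have h6 : (n - 1) / n ≤ Real.exp (-(1 / n)) := by
      have := Real.add_one_le_exp (-(1 / n))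
      have h7 : (n - 1) / n = -(1 / n) + 1 := by field_simp; ring
      rw [h7]; exact this
    calc ((n - 1) / n) ^ k ≤ (Real.exp (-(1 / n))) ^ k :=
          pow_le_pow_left₀ (div_nonneg (by linarith) hn0.le) h6 k
      _ = Real.exp (-(k / n)) := by rw [← Real.exp_nat_mul]; congr 1; ring
  have h6 : t ≤ 1 - n * ((n - 1) / n) ^ k := by
    have := mul_le_mul_of_nonneg_left h5 hn0.le
    linarith
  calc (M.V Set.univ : ℝ) * t ≤ (M.V Set.univ : ℝ) * (1 - n * ((n - 1) / n) ^ k) :=
        mul_le_mul_of_nonneg_left h6 hV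
    _ ≤ M.C k := by rw [← h3]; exact h2

end Sys

end MPe1e800INJ
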